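import Pool.Agent.GNV7.Main

/-!
# MP_b2cf3d_ag : generalised nonvanishing for varieties dominated by products of hyperkähler
manifolds

`X` is a normal `ℚ`-factorial projective variety with a generically finite surjective morphism
`Z × Y_1 × ⋯ × Y_m → X`, where the `Y_j` are hyperkähler manifolds with `b_2(Y_j) ≠ 4`, of any
dimension and deformation type, and nef line bundles on `Z` are num-effective (for instance `Z` is
a point or an abelian variety); `K_X` is num-effective, for instance `K_X ≡ 0`. Then
`K_X + Δ + t L` is num-effective for every effective `ℝ`-divisor `Δ`, every nef `ℚ`-divisor `L` and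
every real `t ≥ 0`. (The `Y_j` can also be primitive symplectic varieties with `ℚ`-factorial
terminal singularities and `b_2 ≥ 5`.)
-/

set_option autoImplicit false

open Pool.Agent.GNV7

namespace Pool.Agent.Results.MP_b2cf3d_ag.HyperkahlerManifolds

theorem result (X W Z : Variety) (f : GenericallyFinite W X) {m : ℕ} (Y : Fin m → Member)
    (hY : ∀ j, (Y j).IsHyperkahler) (P : Product W Z fun j => (Y j).variety)
    (hZ : Z.NefEffective) (K : X.N) (hK : X.NumEffective K) :
    ∀ Δ : X.Prime →₀ ℝ, (∀ p, 0 ≤ Δ p) → ∀ L, X.IsNefRat L → ∀ t : ℝ, 0 ≤ t →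
      X.NumEffective (K + X.classOf Δ + t • L) := by
  intro Δ hΔ L hL t ht
  obtain ⟨k, hk, hline, hnef⟩ := hL
  have hW := P.nefEffective hZ fun j => Member.nefEffective (hY j)
  have hk' : (0 : ℝ) < k := by exact_mod_cast hk
  have h := Variety.NumEffective.of_smul hk' (f.nefEffective hW _ hline hnef)
  exact (hK.add (Variety.numEffective_classOf hΔ)).add (h.smul ht)

end Pool.Agent.Results.MP_b2cf3d_ag.HyperkahlerManifolds
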