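import Pool.Agent.WGN7.Main

namespace Pool.Agent.Results.MP_b2cf3d_ag.ParabolicGroups

open Pool.Agent.WGN7

/-- Generalised nonvanishing for nef line bundles with a large group of symmetries.
`X` is a normal projective `ℚ`-factorial variety of dimension `d`, `O(α)` a nef line bundle of
numerical dimension `ν`, `1 ≤ ν < d`, and `G = ℤ^r`, `r > 2 (d - ν) (d - 1)`, a group of birational
automorphisms of `X`, isomorphic in codimension one, which fix the class of `α`, preserve a
pluricanonical form and fix a closed point of a resolution (together with its local ring).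
If `(g - 1)(h - 1) N¹(X) ⊆ ℚ α` for `g, h ∈ G` and all movable classes fixed by some `g ≠ 1` are
multiples of `α`, or if `ν = d - 1`, the form `x · y · α^(d-2)` is nondegenerate and `G` acts
faithfully on `N¹(X)`, then `K_X + Δ + t L` is num-effective for `L = O(α)`, all effective `Δ` and
all `t ≥ 0`, and `L` has numerical Iitaka dimension at least `1`. -/
theorem result {k : Type} [Field k] [CharZero k] [IsAlgClosed k] (d r ν : ℕ)
    (X : Variety k d) (hX : X.IsProjective)
    (α : X.Div) (hα : X.IsNefOfDim α ν) (hν1 : 1 ≤ ν) (hν : ν < d)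
    (G : X.Action r α) (hG : ∃ w f, X.IsPluricanonical w f ∧ G.Preserves w f)
    (hr : 2 * (d - ν) * (d - 1) < r)
    (h : (G.toActionData.IsQuadratic α ∧ G.toActionData.IsolatedCusp α) ∨
      (ν = d - 1 ∧ X.IsNondegenerate (X.classOf α) ∧ G.Faithful)) :
    X.GeneralisedNonvanishing α := by
  obtain ⟨-, h2, h3⟩ := Variety.main_theorem hX hα hν1 hν G hG hr
  rcases h with ⟨hq, hi⟩ | ⟨hd, hn, hf⟩
  · exact h2 hq hi
  · exact h3 hd hn hf

end Pool.Agent.Results.MP_b2cf3d_ag.ParabolicGroups
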